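import Pool.Agent.H597Z.ConeYes

set_option autoImplicit false

namespace Pool.Agent.Results.MP_a6ddc5_al.ASubexpGrowth

open Pool.Agent.H597Z.ConeDefs

universe u

/-- A group has the fixed-point property for cones if and only if the word-metric balls of each of
its finite subsets grow subexponentially. In particular a finitely generated group with the
fixed-point property for cones has subexponential growth (negative answer to Q1). -/
theorem result : ∀ (G : Type u) [Group G],
    (FPC.{u, u} G ↔ ∀ S : Finset G, Subexp S) ∧
    ∀ S : Finset G, Subgroup.closure (S : Set G) = ⊤ → FPC.{u, u} G → Subexp S :=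
  fun _ _ => ⟨Pool.Agent.H597Z.ConeYes.FPC_iff,
    fun S _ h => Pool.Agent.H597Z.ConeYes.FPC_iff.1 h S⟩

end Pool.Agent.Results.MP_a6ddc5_al.ASubexpGrowth
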